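import Pool.Agent.Q279.SN.Fin
import Pool.Agent.Q279.SN.J.HAND
import Pool.Agent.Q279.SN.J.ZNC
import Pool.Agent.Q279.SN.J.FNC
import Pool.Agent.Q279.SN.J.FZ
import Pool.Agent.Q279.SN.J.CUB
import Pool.Agent.Q279.SN.J.GIR
import Pool.Agent.Q279.SN.J.P4
import Pool.Agent.Q279.SN.J.CYC
import Pool.Agent.Q279.SN.J.EG
import Pool.Agent.Q279.SN.J.COL
import Pool.Agent.Q279.SN.J.EXC
import Pool.Agent.Q279.SN.J.REST
import Pool.Agent.Q279.SN.J.Q
import Pool.Agent.Q279.SN.J.FORCED
import Pool.Agent.Q279.SN.J.ONE
import Pool.Agent.Q279.SN.J.MANY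
import Pool.Agent.Q279.SN.J.LEN
import Pool.Agent.Q279.SN.J.PET

/-!
# MP_dce662_co: the excess of the shortest cycle cover is unbounded on the family

For every `c` there is a member of the family of the problem (three snarks of excessive index
at least five, an edge of each and a labelling of the neighbours of its ends, glued as in the
problem) all of whose cycle covers have length at least `4/3 |E| + c`.  The answer to Q1 is
yes.  The graphs are obtained by iterating the construction, starting with three copies of the
Petersen graph.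
-/

namespace Pool.Agent.Results.MP_dce662_co.ExcessUnbounded

open Pool.Agent.Q279.SN

theorem result (c : ℕ) :
    ∃ P : Fin 3 → Piece, (∀ i, IsSnark (P i).G ∧ ExcGeFive (P i).G) ∧
      ∀ (m : ℕ) (C : Fin m → (comp P).Subgraph), IsCycleCover C →
        4 * (comp P).edgeSet.ncard + 3 * c ≤ 3 * coverLength C :=
  final (JZNC.main JHAND.main) (JFNC.main JHAND.main) JFZ.main JCUB.main JGIR.main JP4.main
    (JFORCED.main JHAND.main JREST.main JQ.main) (JONE.main JREST.main)
    (JMANY.main JREST.main) JCYC.main JEG.main JCOL.main JEXC.main JLEN.main JPET.main c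

end Pool.Agent.Results.MP_dce662_co.ExcessUnbounded
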